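import Pool.Agent.W459.AD.Ext

set_option autoImplicit false

open Module TensorProduct PowerSeries

universe u v w

namespace Pool.Agent.W459.AD

theorem base_change {k : Type u} [Field k] {A : Type u} [CommRing A] [Algebra k A]
    {B : Type u} [CommRing B] [Algebra k⟦X⟧ B] {d : ℕ} (b : Basis (Fin d) k⟦X⟧ B)
    {φ : B →+* A} (hφ : IsSpecialFibre k φ)
    {S : Type u} [CommRing S] [Algebra k⟦X⟧ S] (χ : S →+* k) (ϖ : S)
    (hker : ∀ s, χ s = 0 ↔ ϖ ∣ s)
    (hχ : ∀ r : k⟦X⟧, χ (algebraMap k⟦X⟧ S r) = constantCoeff r)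
    (g : Fin d → (B →ₐ[k⟦X⟧] S)) :
    ∃ (B' : Type u) (_ : CommRing B') (_ : Algebra S B') (b' : Basis (Fin d) S B')
      (φ' : B' →+* A) (g' : Fin d → (B' →ₐ[S] S)),
      Function.Surjective φ' ∧ RingHom.ker φ' = Ideal.span {algebraMap S B' ϖ} ∧
      (∀ s, φ' (algebraMap S B' s) = algebraMap k A (χ s)) ∧
      (∀ i j, g' i (b' j) = g i (b j)) := by
  classical
  let _ : Algebra k⟦X⟧ A := (φ.comp (algebraMap k⟦X⟧ B)).toAlgebra
  let φa : B →ₐ[k⟦X⟧] A := { φ with commutes' := fun r => rfl }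
  let χa : S →ₐ[k⟦X⟧] A :=
    { (algebraMap k A).comp χ with
      commutes' := fun r => by
        change algebraMap k A (χ (algebraMap k⟦X⟧ S r)) = φ (algebraMap k⟦X⟧ B r)
        rw [hχ, Algebra.algebraMap_eq_smul_one (R := k⟦X⟧), map_smul_fibre hφ, map_one,
          Algebra.algebraMap_eq_smul_one] }
  let ψ : S ⊗[k⟦X⟧] B →ₐ[k⟦X⟧] A := Algebra.TensorProduct.productMap χa φa
  have hψ : ∀ s x, ψ (s ⊗ₜ x) = algebraMap k A (χ s) * φ x := fun s x => by
    rw [Algebra.TensorProduct.productMap_apply_tmul]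
    rfl
  let b' : Basis (Fin d) S (S ⊗[k⟦X⟧] B) := b.baseChange S
  have hb' : ∀ j, b' j = 1 ⊗ₜ b j := fun j => by
    simp [b']
  have hψs : ∀ (s : S) (x : S ⊗[k⟦X⟧] B), ψ (s • x) = χ s • ψ x := by
    intro s x
    have h1 : s • x = (s ⊗ₜ[k⟦X⟧] (1 : B)) * x := by
      rw [Algebra.smul_def]
      rfl
    rw [h1, map_mul, hψ, map_one, mul_one, Algebra.smul_def]
  refine ⟨S ⊗[k⟦X⟧] B, inferInstance, inferInstance, b', ψ.toRingHom,
    fun i => Algebra.TensorProduct.lift (AlgHom.id S S) (g i) (fun _ _ => Commute.all _ _),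
    ?_, ?_, ?_, ?_⟩
  · intro a
    obtain ⟨x, rfl⟩ := hφ.1 a
    refine ⟨1 ⊗ₜ x, ?_⟩
    change ψ (1 ⊗ₜ x) = φ x
    rw [hψ, map_one, map_one, one_mul]
  · apply le_antisymm
    · intro x hx
      have hx' : ψ x = 0 := hx
      have h1 : ∑ j, χ (b'.repr x j) • φ (b j) = 0 := by
        rw [← hx']
        conv_rhs => rw [← b'.sum_repr x, map_sum]
        refine Finset.sum_congr rfl fun j _ => ?_
        rw [hψs, hb', hψ, map_one, map_one, one_mul]
      have h2 := Fintype.linearIndependent_iff.1 (fibre_basis hφ b).1 _ h1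
      choose c hc using fun j => (hker _).1 (h2 j)
      rw [Ideal.mem_span_singleton]
      refine ⟨∑ j, c j • b' j, ?_⟩
      rw [← Algebra.smul_def, Finset.smul_sum]
      conv_lhs => rw [← b'.sum_repr x]
      refine Finset.sum_congr rfl fun j _ => ?_
      rw [hc j, mul_smul]
    · rw [Ideal.span_le, Set.singleton_subset_iff]
      change ψ (algebraMap S (S ⊗[k⟦X⟧] B) ϖ) = 0
      rw [Algebra.algebraMap_eq_smul_one, hψs, (hker ϖ).2 dvd_rfl, zero_smul]
  · intro s
    change ψ (algebraMap S (S ⊗[k⟦X⟧] B) s) = _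
    rw [Algebra.algebraMap_eq_smul_one, hψs, map_one, Algebra.algebraMap_eq_smul_one]
  · intro i j
    rw [hb', Algebra.TensorProduct.lift_tmul, map_one, one_mul]

/-- Transport to the power series ring. -/
theorem base_change' {k : Type u} [Field k] {A : Type u} [CommRing A] [Algebra k A]
    {B : Type u} [CommRing B] [Algebra k⟦X⟧ B] {d : ℕ} (b : Basis (Fin d) k⟦X⟧ B)
    {φ : B →+* A} (hφ : IsSpecialFibre k φ)
    {S : Type u} [CommRing S] [Algebra k⟦X⟧ S] (e : S ≃+* k⟦X⟧)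
    (he : ∀ c : k, e (algebraMap k⟦X⟧ S (C c)) = C c)
    (hX : constantCoeff (e (algebraMap k⟦X⟧ S X)) = 0)
    (g : Fin d → (B →ₐ[k⟦X⟧] S)) (hdet : (Matrix.of fun i j => g i (b j)).det ≠ 0) :
    ∃ (B' : Type u) (_ : CommRing B') (_ : Algebra k⟦X⟧ B') (b' : Basis (Fin d) k⟦X⟧ B')
      (φ' : B' →+* A) (g' : Fin d → (B' →ₐ[k⟦X⟧] k⟦X⟧)),
      IsSpecialFibre k φ' ∧ (Matrix.of fun i j => g' i (b' j)).det ≠ 0 := by
  classical
  let χ : S →+* k := (constantCoeff (R := k)).comp (e : S →+* k⟦X⟧)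
  have hχ : ∀ r : k⟦X⟧, χ (algebraMap k⟦X⟧ S r) = constantCoeff r := by
    intro r
    have h1 : r = C (constantCoeff r) + X * (PowerSeries.mk fun n => coeff (n + 1) r) := by
      conv_lhs => rw [PowerSeries.eq_X_mul_shift_add_const r]
      ring
    conv_lhs => rw [h1, map_add, map_mul, map_add, map_mul]
    change constantCoeff (e (algebraMap k⟦X⟧ S (C (constantCoeff r)))) +
      constantCoeff (e (algebraMap k⟦X⟧ S X)) * _ = _
    rw [he, hX, zero_mul, add_zero, constantCoeff_C]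
  have hker : ∀ s, χ s = 0 ↔ e.symm X ∣ s := by
    intro s
    change constantCoeff (e s) = 0 ↔ _
    rw [← PowerSeries.X_dvd_iff]
    constructor
    · intro h
      have := map_dvd e.symm h
      rwa [RingEquiv.symm_apply_apply] at this
    · intro h
      have := map_dvd e h
      rwa [RingEquiv.apply_symm_apply] at this
  obtain ⟨B', i1, i2, b', φ', g', h1, h2, h3, h4⟩ := base_change b hφ χ (e.symm X) hker hχ g
  let _ : Algebra k⟦X⟧ B' := ((algebraMap S B').comp (e.symm : k⟦X⟧ →+* S)).toAlgebra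
  have halg : ∀ r : k⟦X⟧, algebraMap k⟦X⟧ B' r = algebraMap S B' (e.symm r) := fun r => rfl
  have hsm : ∀ (c : S) (x : B'), e c • x = c • x := by
    intro c x
    rw [Algebra.smul_def, halg, RingEquiv.symm_apply_apply, Algebra.smul_def]
  refine ⟨B', i1, inferInstance, b'.mapCoeffs e hsm, φ', fun i =>
    { (e : S →+* k⟦X⟧).comp ((g' i : B' →ₐ[S] S) : B' →+* S) with
      commutes' := fun r => ?_ }, ⟨h1, ?_, ?_⟩, ?_⟩
  · change e (g' i (algebraMap k⟦X⟧ B' r)) = r
    rw [halg, AlgHom.commutes]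
    change e (e.symm r) = r
    rw [RingEquiv.apply_symm_apply]
  · rw [h2, halg]
  · intro c
    rw [halg, h3]
    change algebraMap k A (constantCoeff (e (e.symm (C c)))) = _
    rw [RingEquiv.apply_symm_apply, constantCoeff_C]
  · intro h0
    apply hdet
    have h5 : (e : S →+* k⟦X⟧) (Matrix.of fun i j => g i (b j)).det = 0 := by
      rw [← h0, RingHom.map_det]
      congr 1
      ext1 i j
      change e (g i (b j)) = e (g' i ((b'.mapCoeffs e hsm) j))
      rw [Basis.mapCoeffs_apply, h4]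
    exact e.injective (h5.trans (map_zero e).symm)

end Pool.Agent.W459.AD
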