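import Mathlib

set_option autoImplicit false

open Module

universe u v

namespace Pool.Agent.W459.AD

section lin

variable {k : Type u} [Field k] {V : Type v} [AddCommGroup V] [Module k V]

/-- A family independent on a set of positions can be completed to an independent family. -/
theorem extend_indep [FiniteDimensional k V] {d : ℕ} (hd : finrank k V = d) :
    ∀ (n : ℕ) (s : Finset (Fin d)), s.card + n = d → ∀ f : Fin d → V,
      LinearIndepOn k f (s : Set (Fin d)) →
      ∃ g : Fin d → V, (∀ i ∈ s, g i = f i) ∧ LinearIndependent k g := by
  classical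
  intro n
  induction n with
  | zero =>
    intro s hs f hf
    have : s = Finset.univ := by
      apply Finset.eq_univ_of_card
      simpa using hs
    subst this
    refine ⟨f, fun _ _ => rfl, ?_⟩
    rw [← linearIndepOn_univ_iff]
    simpa using hf
  | succ n ih =>
    intro s hs f hf
    have hlt : s.card < d := by omega
    obtain ⟨i, hi⟩ : ∃ i, i ∉ s := by
      by_contra h
      push Not at h
      have : s = Finset.univ := by
        ext x; simp [h x]
      rw [this] at hlt
      simp at hlt
    have hspan : Submodule.span k (f '' (s : Set (Fin d))) ≠ ⊤ := by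
      intro h
      have h1 : finrank k (Submodule.span k (f '' (s : Set (Fin d)))) ≤ s.card := by
        have h2 := finrank_span_finset_le_card (R := k) (s.image f)
        have h3 : ((s.image f : Finset V) : Set V) = f '' (s : Set (Fin d)) := by simp
        rw [h3] at h2
        exact h2.trans Finset.card_image_le
      rw [h, finrank_top, hd] at h1
      omega
    obtain ⟨x, hx⟩ : ∃ x, x ∉ Submodule.span k (f '' (s : Set (Fin d))) := by
      by_contra h
      push Not at h
      exact hspan (by ext y; simp [h y])
    have himg : (Function.update f i x) '' (s : Set (Fin d)) = f '' (s : Set (Fin d)) := by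
      apply Set.image_congr
      intro a ha
      have : a ≠ i := by rintro rfl; exact hi ha
      simp [this]
    obtain ⟨g, hg1, hg2⟩ := ih (insert i s) (by rw [Finset.card_insert_of_notMem hi]; omega)
      (Function.update f i x) (by
        rw [Finset.coe_insert, linearIndepOn_insert (by simpa using hi)]
        refine ⟨?_, ?_⟩
        · refine (linearIndepOn_congr ?_).1 hf
          intro a ha
          have : a ≠ i := by rintro rfl; exact hi ha
          simp [this]
        · rw [himg]
          simpa using hx)
    refine ⟨g, ?_, hg2⟩
    intro a ha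
    rw [hg1 a (Finset.mem_insert_of_mem ha)]
    have : a ≠ i := by rintro rfl; exact hi ha
    simp [this]

theorem extend_indep' [FiniteDimensional k V] {d : ℕ} (hd : finrank k V = d)
    (s : Finset (Fin d)) (f : Fin d → V) (hf : LinearIndepOn k f (s : Set (Fin d))) :
    ∃ g : Fin d → V, (∀ i ∈ s, g i = f i) ∧ LinearIndependent k g :=
  extend_indep hd (d - s.card) s (by
    have := Finset.card_le_univ s
    simp at this
    omega) f hf

end lin

section alg

variable {k : Type u} [Field k] {A : Type v} [CommRing A] [Algebra k A] [FiniteDimensional k A]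

/-- There is a basis with the unit in a prescribed position. -/
theorem basis_one {d : ℕ} (hd : finrank k A = d) (p : Fin d) :
    ∃ B : Basis (Fin d) k A, B p = 1 := by
  classical
  have hd0 : 0 < d := Fin.pos p
  have hnt : Nontrivial A := by
    apply Module.nontrivial_of_finrank_pos (R := k)
    omega
  obtain ⟨g, hg1, hg2⟩ := extend_indep' hd {p} (fun _ => (1 : A)) (by
    rw [Finset.coe_singleton]
    exact LinearIndepOn.singleton one_ne_zero)
  have hne : Nonempty (Fin d) := ⟨p⟩
  refine ⟨basisOfLinearIndependentOfCardEqFinrank hg2 (by simp [hd]), ?_⟩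
  simp [hg1 p (by simp)]

/-- For all positions `i, j, l` there is an independent family with `g l = g i * g j`. -/
theorem exists_family [Infinite k] {d : ℕ} (hd : finrank k A = d) (i j l : Fin d) :
    ∃ g : Fin d → A, LinearIndependent k g ∧ g l = g i * g j := by
  classical
  by_cases hlj : l = j
  · obtain ⟨B, hB⟩ := basis_one (k := k) (A := A) hd i
    exact ⟨B, B.linearIndependent, by rw [hB, hlj, one_mul]⟩
  by_cases hli : l = i
  · obtain ⟨B, hB⟩ := basis_one (k := k) (A := A) hd j
    exact ⟨B, B.linearIndependent, by rw [hB, hli, mul_one]⟩
  obtain ⟨B, hB⟩ := basis_one (k := k) (A := A) hd l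
  have hfl1 : B.coord l 1 = 1 := by rw [← hB]; simp
  have hfi1 : B.coord i 1 = 0 := by rw [← hB]; simp [hli]
  have hfj1 : B.coord j 1 = 0 := by rw [← hB]; simp [hlj]
  have hfii : B.coord i (B i) = 1 := by simp
  have hfjj : B.coord j (B j) = 1 := by simp
  have hfli : B.coord l (B i) = 0 := by simp [Ne.symm hli]
  have hflj : B.coord l (B j) = 0 := by simp [Ne.symm hlj]
  by_cases hij : i = j
  · subst hij
    set a := B i with ha
    obtain ⟨s, hs⟩ : ∃ s : k, B.coord l (a * a) ≠ s * s + B.coord i (a * a) * s := by
      by_contra h
      push Not at h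
      have h0 := h 0
      simp only [mul_zero, add_zero] at h0
      obtain ⟨s, hs⟩ := Infinite.exists_notMem_finset ({0, -B.coord i (a * a)} : Finset k)
      have h1 := h s
      rw [h0] at h1
      simp only [Finset.mem_insert, Finset.mem_singleton, not_or] at hs
      have h2 : s * (s + B.coord i (a * a)) = 0 := by rw [h1]; ring
      rcases mul_eq_zero.1 h2 with h3 | h3
      · exact hs.1 h3
      · exact hs.2 (eq_neg_of_add_eq_zero_left h3)
    set u : A := algebraMap k A s + a with hu
    have hu1 : u = s • (1 : A) + a := by rw [hu, Algebra.algebraMap_eq_smul_one]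
    have hiu : B.coord i u = 1 := by rw [hu1, map_add, map_smul, hfi1, hfii]; simp
    have hlu : B.coord l u = s := by rw [hu1, map_add, map_smul, hfl1, hfli]; simp
    have huu : u * u = (s * s) • (1 : A) + (2 * s) • a + a * a := by
      rw [hu]
      simp only [Algebra.smul_def, map_mul, map_ofNat, mul_one]
      ring
    have h2 : ∀ x : k, u * u ≠ x • u := by
      intro x hx
      apply hs
      have e1 : B.coord i (u * u) = x := by rw [hx, map_smul, hiu, smul_eq_mul, mul_one]
      have e2 : B.coord l (u * u) = x * s := by rw [hx, map_smul, hlu, smul_eq_mul]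
      rw [huu, map_add, map_add, map_smul, map_smul, hfi1, hfii] at e1
      rw [huu, map_add, map_add, map_smul, map_smul, hfl1, hfli] at e2
      simp only [smul_eq_mul, mul_zero, mul_one, zero_add, add_zero] at e1 e2
      rw [← e1] at e2
      linear_combination e2
    have hu0 : u ≠ 0 := by
      intro h
      rw [h, map_zero] at hiu
      exact zero_ne_one hiu
    obtain ⟨g, hg1, hg2⟩ := extend_indep' hd {l, i} (fun t => if t = l then u * u else u) (by
      rw [Finset.coe_insert, Finset.coe_singleton, linearIndepOn_insert (by simpa using hli)]
      refine ⟨?_, ?_⟩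
      · apply LinearIndepOn.singleton
        simpa [Ne.symm hli] using hu0
      · rw [Set.image_singleton]
        simp only [Ne.symm hli, if_false, if_true]
        rw [Submodule.mem_span_singleton]
        rintro ⟨x, hx⟩
        exact h2 x hx.symm)
    refine ⟨g, hg2, ?_⟩
    rw [hg1 l (by simp), hg1 i (by simp)]
    simp [Ne.symm hli]
  · have hfij : B.coord i (B j) = 0 := by simp [Ne.symm hij]
    have hfji : B.coord j (B i) = 0 := by simp [hij]
    set a := B i with ha
    set b := B j with hb
    obtain ⟨s, t, hst⟩ : ∃ s t : k, B.coord l (a * b) ≠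
        B.coord i (a * b) * s + B.coord j (a * b) * t + s * t := by
      obtain ⟨t, ht⟩ := exists_ne (-B.coord i (a * b))
      have ht' : B.coord i (a * b) + t ≠ 0 := by
        intro h
        exact ht (by linear_combination h)
      obtain ⟨s, hs⟩ := exists_ne ((B.coord l (a * b) - B.coord j (a * b) * t) /
        (B.coord i (a * b) + t))
      refine ⟨s, t, fun h => hs ?_⟩
      rw [eq_div_iff ht']
      linear_combination -h
    set u : A := s • (1 : A) + a with hu
    set w : A := t • (1 : A) + b with hw
    have hiu : B.coord i u = 1 := by rw [hu, map_add, map_smul, hfi1, hfii]; simp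
    have hju : B.coord j u = 0 := by rw [hu, map_add, map_smul, hfj1, hfji]; simp
    have hlu : B.coord l u = s := by rw [hu, map_add, map_smul, hfl1, hfli]; simp
    have hiw : B.coord i w = 0 := by rw [hw, map_add, map_smul, hfi1, hfij]; simp
    have hjw : B.coord j w = 1 := by rw [hw, map_add, map_smul, hfj1, hfjj]; simp
    have hlw : B.coord l w = t := by rw [hw, map_add, map_smul, hfl1, hflj]; simp
    have huw : u * w = (s * t) • (1 : A) + t • a + s • b + a * b := by
      rw [hu, hw]
      simp only [Algebra.smul_def, map_mul, mul_one]
      ring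
    have h2 : ∀ x y : k, u * w ≠ x • u + y • w := by
      intro x y hx
      apply hst
      have e1 : B.coord i (u * w) = x := by
        rw [hx, map_add, map_smul, map_smul, hiu, hiw]; simp
      have e2 : B.coord j (u * w) = y := by
        rw [hx, map_add, map_smul, map_smul, hju, hjw]; simp
      have e3 : B.coord l (u * w) = x * s + y * t := by
        rw [hx, map_add, map_smul, map_smul, hlu, hlw]; simp
      rw [huw, map_add, map_add, map_add, map_smul, map_smul, map_smul, hfi1, hfii, hfij] at e1
      rw [huw, map_add, map_add, map_add, map_smul, map_smul, map_smul, hfj1, hfji, hfjj] at e2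
      rw [huw, map_add, map_add, map_add, map_smul, map_smul, map_smul, hfl1, hfli, hflj] at e3
      simp only [smul_eq_mul, mul_zero, mul_one, zero_add, add_zero] at e1 e2 e3
      rw [← e1, ← e2] at e3
      linear_combination e3
    have hu0 : u ≠ 0 := by
      intro h
      rw [h, map_zero] at hiu
      exact zero_ne_one hiu
    have hjnl : j ≠ l := Ne.symm hlj
    have hinl : i ≠ l := Ne.symm hli
    have hjni : j ≠ i := Ne.symm hij
    obtain ⟨g, hg1, hg2⟩ := extend_indep' hd {l, j, i}
      (fun c => if c = l then u * w else if c = j then w else u) (by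
      rw [Finset.coe_insert, Finset.coe_insert, Finset.coe_singleton,
        linearIndepOn_insert (by simp [hlj, hli]), linearIndepOn_insert (by simp [hjni])]
      refine ⟨⟨?_, ?_⟩, ?_⟩
      · apply LinearIndepOn.singleton
        simpa [hinl, hij] using hu0
      · rw [Set.image_singleton]
        simp only [hinl, hij, hjnl, if_false, if_true]
        rw [Submodule.mem_span_singleton]
        rintro ⟨x, hx⟩
        have := congrArg (B.coord j) hx
        rw [map_smul, hju, hjw] at this
        simp at this
      · rw [Set.image_insert_eq, Set.image_singleton]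
        simp only [hinl, hij, hjnl, if_false, if_true]
        rw [Submodule.mem_span_pair]
        rintro ⟨y, x, hx⟩
        exact h2 x y (by rw [← hx]; ring))
    refine ⟨g, hg2, ?_⟩
    rw [hg1 l (by simp), hg1 i (by simp), hg1 j (by simp)]
    simp [hinl, hij, hjnl]

end alg

end Pool.Agent.W459.AD
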