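import Mathlib

set_option autoImplicit false

open Module TensorProduct PowerSeries

universe u v

namespace Pool.Agent.W459.AD

/-- The `k[[t]]`-algebra `𝒜` is an abstract smoothing of the `k`-algebra `A`: it is finite and flat,
its generic fibre is geometrically reduced, and its special fibre `𝒜/t𝒜` is isomorphic to `A` over
`k`. -/
def IsAbstractSmoothing (k : Type u) [Field k] (A : Type u) [CommRing A] [Algebra k A]
    (𝒜 : Type u) [CommRing 𝒜] [Algebra k⟦X⟧ 𝒜] : Prop :=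
  Module.Finite k⟦X⟧ 𝒜 ∧ Module.Flat k⟦X⟧ 𝒜 ∧
  Algebra.IsGeometricallyReduced (LaurentSeries k) (LaurentSeries k ⊗[k⟦X⟧] 𝒜) ∧
  ∃ f : (𝒜 ⧸ Ideal.span {algebraMap k⟦X⟧ 𝒜 X}) ≃+* A,
    ∀ c : k, f (Ideal.Quotient.mk _ (algebraMap k⟦X⟧ 𝒜 (C c))) = algebraMap k A c

/-- The generic fibre of `𝒜` is a product of copies of `k((t))`, `dim_k A` many. -/
def IsCompletelySplit (k : Type u) [Field k] (A : Type u) [CommRing A] [Algebra k A]
    (𝒜 : Type u) [CommRing 𝒜] [Algebra k⟦X⟧ 𝒜] : Prop :=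
  Nonempty ((LaurentSeries k ⊗[k⟦X⟧] 𝒜) ≃ₐ[LaurentSeries k]
    (Fin (finrank k A) → LaurentSeries k))

open Classical in
/-- `ad(𝒜; e)`: the maximal valuation of a nonzero structure constant in the basis `e`. -/
noncomputable def ad {k : Type u} [Field k] {𝒜 : Type v} [CommRing 𝒜] [Algebra k⟦X⟧ 𝒜] {d : ℕ}
    (e : Basis (Fin d) k⟦X⟧ 𝒜) : ℕ :=
  (Finset.univ.filter fun p : Fin d × Fin d × Fin d =>
    e.repr (e p.1 * e p.2.1) p.2.2 ≠ 0).sup
      fun p => (e.repr (e p.1 * e p.2.1) p.2.2).order.toNat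

/-- The approximation degree of `𝒜`, the minimum of `ad(𝒜; e)` over all bases `e`, is `n`. -/
def HasApproxDegree (k : Type u) [Field k] (𝒜 : Type v) [CommRing 𝒜] [Algebra k⟦X⟧ 𝒜]
    (n : ℕ) : Prop :=
  IsLeast (Set.range fun e : Basis (Fin (finrank k⟦X⟧ 𝒜)) k⟦X⟧ 𝒜 => ad e) n

end Pool.Agent.W459.AD
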