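import Pool.Agent.W459.AD.Gen

set_option autoImplicit false

open Module PowerSeries

universe u v w

namespace Pool.Agent.W459.AD

section fibre

variable {k : Type u} [Field k] {A : Type v} [CommRing A] [Algebra k A]
  {B : Type w} [CommRing B] [Algebra k⟦X⟧ B]

variable (k) in
/-- `φ` presents `A` as the special fibre of `B`. -/
def IsSpecialFibre (φ : B →+* A) : Prop :=
  Function.Surjective φ ∧
  RingHom.ker φ = Ideal.span {algebraMap k⟦X⟧ B X} ∧
  ∀ c : k, φ (algebraMap k⟦X⟧ B (C c)) = algebraMap k A c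

theorem map_smul_fibre {φ : B →+* A} (hφ : IsSpecialFibre k φ) (r : k⟦X⟧) (x : B) :
    φ (r • x) = constantCoeff r • φ x := by
  have h1 : r = C (constantCoeff r) + X * (PowerSeries.mk fun n => coeff (n + 1) r) := by
    conv_lhs => rw [PowerSeries.eq_X_mul_shift_add_const r]
    ring
  have hX : φ (algebraMap k⟦X⟧ B X) = 0 := by
    rw [← RingHom.mem_ker, hφ.2.1]
    exact Ideal.subset_span rfl
  conv_lhs => rw [h1, Algebra.smul_def, map_add, map_mul, map_mul, map_add, map_mul, hX, hφ.2.2]
  rw [zero_mul, add_zero, Algebra.smul_def]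

theorem fibre_basis {φ : B →+* A} (hφ : IsSpecialFibre k φ) {d : ℕ} (b : Basis (Fin d) k⟦X⟧ B) :
    LinearIndependent k (fun i => φ (b i)) ∧ ⊤ ≤ Submodule.span k (Set.range fun i => φ (b i)) := by
  constructor
  · rw [Fintype.linearIndependent_iff]
    intro g hg i
    have h1 : φ (∑ i, C (g i) • b i) = 0 := by
      rw [map_sum, ← hg]
      refine Finset.sum_congr rfl fun i _ => ?_
      rw [map_smul_fibre hφ]
      simp
    rw [← RingHom.mem_ker, hφ.2.1, Ideal.mem_span_singleton] at h1
    obtain ⟨y, hy⟩ := h1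
    have h2 : b.repr (∑ i, C (g i) • b i) i = b.repr (algebraMap k⟦X⟧ B X * y) i := by rw [hy]
    rw [b.repr_sum_self, ← Algebra.smul_def, map_smul, Finsupp.smul_apply, smul_eq_mul] at h2
    have h3 := congrArg (constantCoeff (R := k)) h2
    simpa using h3
  · intro a _
    obtain ⟨x, rfl⟩ := hφ.1 a
    rw [← b.sum_repr x, map_sum]
    refine Submodule.sum_mem _ fun i _ => ?_
    rw [map_smul_fibre hφ]
    exact Submodule.smul_mem _ _ (Submodule.subset_span ⟨i, rfl⟩)

theorem repr_fibre {φ : B →+* A} (hφ : IsSpecialFibre k φ) {d : ℕ} (b : Basis (Fin d) k⟦X⟧ B)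
    (g : Basis (Fin d) k A) (hg : ∀ i, φ (b i) = g i) (x : B) (i : Fin d) :
    g.repr (φ x) i = constantCoeff (b.repr x i) := by
  conv_lhs => rw [← b.sum_repr x, map_sum]
  rw [map_sum, Finsupp.finsetSum_apply, Finset.sum_eq_single i]
  · rw [map_smul_fibre hφ, hg, map_smul, Finsupp.smul_apply, Basis.repr_self]
    simp
  · intro j _ hj
    rw [map_smul_fibre hφ, hg, map_smul, Finsupp.smul_apply, Basis.repr_self]
    simp [hj]
  · intro h
    exact absurd (Finset.mem_univ i) h

/-- Lifting a basis of the special fibre. -/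
theorem lift_basis {φ : B →+* A} (hφ : IsSpecialFibre k φ) {d : ℕ} (b : Basis (Fin d) k⟦X⟧ B)
    (g : Basis (Fin d) k A) :
    ∃ e : Basis (Fin d) k⟦X⟧ B, ∀ i, φ (e i) = g i := by
  classical
  obtain ⟨hb1, hb2⟩ := fibre_basis hφ b
  set bb : Basis (Fin d) k A := Basis.mk hb1 hb2 with hbb
  have hbbi : ∀ i, bb i = φ (b i) := fun i => by rw [hbb, Basis.mk_apply]
  set v : Fin d → B := fun i => ∑ a, C (bb.repr (g i) a) • b a with hv
  have hφv : ∀ i, φ (v i) = g i := by
    intro i
    rw [hv]
    simp only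
    rw [map_sum]
    conv_rhs => rw [← bb.sum_repr (g i)]
    refine Finset.sum_congr rfl fun a _ => ?_
    rw [map_smul_fibre hφ, hbbi]
    simp
  have hdet : IsUnit (b.det v) := by
    rw [PowerSeries.isUnit_iff_constantCoeff]
    have h1 : constantCoeff (b.det v) = bb.det g := by
      rw [Basis.det_apply, Basis.det_apply, RingHom.map_det]
      congr 1
      ext a i
      rw [RingHom.mapMatrix_apply, Matrix.map_apply, Basis.toMatrix_apply, Basis.toMatrix_apply,
        hv]
      simp only
      rw [b.repr_sum_self]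
      simp
    rw [h1]
    exact bb.isUnit_det g
  rw [← Basis.is_basis_iff_det] at hdet
  refine ⟨Basis.mk hdet.1 hdet.2.ge, fun i => ?_⟩
  rw [Basis.mk_apply, hφv]

/-- Every finite free algebra over the power series ring has a basis all of whose structure
constants are units. -/
theorem unit_basis [Infinite k] {φ : B →+* A} (hφ : IsSpecialFibre k φ) {d : ℕ}
    (b : Basis (Fin d) k⟦X⟧ B) :
    ∃ e : Basis (Fin d) k⟦X⟧ B, ∀ i j l, constantCoeff (e.repr (e i * e j) l) ≠ 0 := by
  obtain ⟨hb1, hb2⟩ := fibre_basis hφ b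
  set bb : Basis (Fin d) k A := Basis.mk hb1 hb2
  have : FiniteDimensional k A := Module.Finite.of_basis bb
  obtain ⟨g, hg⟩ := good_basis bb
  obtain ⟨e, he⟩ := lift_basis hφ b g
  refine ⟨e, fun i j l => ?_⟩
  rw [← repr_fibre hφ e g he, map_mul, he, he]
  exact hg i j l

end fibre

end Pool.Agent.W459.AD
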