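import Pool.Agent.W459.AD.Split
import Pool.Agent.W459.AD.Fibre
import Pool.Agent.Helper819.DC.L1A1
import Pool.Agent.Helper819.DC.L1A2

set_option autoImplicit false

open Module TensorProduct PowerSeries

universe u v w

namespace Pool.Agent.W459.AD

/-- The homomorphisms take values in the integral closure of a finite extension. -/
theorem exists_ext {k : Type u} [Field k] [IsAlgClosed k]
    {B : Type u} [CommRing B] [Algebra k⟦X⟧ B] {d : ℕ} (b : Basis (Fin d) k⟦X⟧ B)
    {E : Type u} [Field E] [Algebra k⟦X⟧ E] [IsFractionRing k⟦X⟧ E]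
    {Ω : Type u} [Field Ω] [Algebra k⟦X⟧ Ω] [Algebra E Ω]
    [IsScalarTower k⟦X⟧ E Ω] [Algebra.IsAlgebraic E Ω]
    (h : Fin d → (B →ₐ[k⟦X⟧] Ω)) (hdet : (Matrix.of fun i j => h i (b j)).det ≠ 0) :
    ∃ (S : Type u) (_ : CommRing S) (_ : Algebra k⟦X⟧ S) (e : S ≃+* k⟦X⟧)
      (g : Fin d → (B →ₐ[k⟦X⟧] S)),
      (∀ c : k, e (algebraMap k⟦X⟧ S (C c)) = C c) ∧
      constantCoeff (e (algebraMap k⟦X⟧ S X)) = 0 ∧
      (Matrix.of fun i j => g i (b j)).det ≠ 0 := by
  classical
  set s : Set Ω := Set.range (fun p : Fin d × Fin d => h p.1 (b p.2)) with hs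
  have hsf : Finite s := by rw [hs]; exact Set.finite_range _
  let L : IntermediateField E Ω := IntermediateField.adjoin E s
  have hfd : FiniteDimensional E L := IntermediateField.finiteDimensional_adjoin
    (fun x _ => Algebra.IsIntegral.isIntegral x)
  have hfin : Module.Finite k⟦X⟧ B := Module.Finite.of_basis b
  have hmem : ∀ i x, h i x ∈ (L.toSubalgebra.restrictScalars k⟦X⟧) := by
    intro i x
    rw [← b.sum_repr x, map_sum]
    refine Subalgebra.sum_mem _ fun j _ => ?_
    rw [map_smul]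
    apply Subalgebra.smul_mem
    exact IntermediateField.subset_adjoin E s ⟨(i, j), rfl⟩
  let h1 : Fin d → (B →ₐ[k⟦X⟧] L) := fun i => (h i).codRestrict _ (hmem i)
  have hval : ∀ i x, ((h1 i x : L) : Ω) = h i x := fun i x => rfl
  let S := integralClosure k⟦X⟧ L
  have hmem2 : ∀ i x, h1 i x ∈ S := by
    intro i x
    exact (Algebra.IsIntegral.isIntegral (R := k⟦X⟧) x).map (h1 i)
  let g : Fin d → (B →ₐ[k⟦X⟧] S) := fun i => (h1 i).codRestrict S (hmem2 i)
  obtain ⟨e, he⟩ := Helper819.DC.L1A2.closure_iso (K := k) (E := E) (L := L)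
    (fun y => Helper819.DC.L1A1.integral_or_inv (E := E) y)
  refine ⟨S, inferInstance, inferInstance, e, g, he, ?_, ?_⟩
  · by_contra hne
    have hu : IsUnit (e (algebraMap k⟦X⟧ S X)) := by
      rw [PowerSeries.isUnit_iff_constantCoeff]
      exact isUnit_iff_ne_zero.2 hne
    have hu2 : IsUnit (algebraMap k⟦X⟧ S X) := by
      have h3 := hu.map e.symm
      rwa [RingEquiv.symm_apply_apply] at h3
    have hinjL : Function.Injective (algebraMap k⟦X⟧ L) := by
      rw [IsScalarTower.algebraMap_eq k⟦X⟧ E L]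
      exact (algebraMap E L).injective.comp (IsFractionRing.injective k⟦X⟧ E)
    have hinjS : Function.Injective (algebraMap k⟦X⟧ S) := by
      intro a b h
      apply hinjL
      exact congrArg (fun t : S => (t : L)) h
    have hfs : FaithfulSMul k⟦X⟧ S := (faithfulSMul_iff_algebraMap_injective _ _).mpr hinjS
    have hint : (algebraMap k⟦X⟧ S).IsIntegral := fun x => Algebra.IsIntegral.isIntegral x
    have hloc : IsLocalHom (algebraMap k⟦X⟧ S) := hint.isLocalHom hinjS
    have hX : IsUnit (X : k⟦X⟧) := hloc.1 _ hu2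
    rw [PowerSeries.isUnit_iff_constantCoeff, PowerSeries.constantCoeff_X] at hX
    exact not_isUnit_zero hX
  · intro h0
    apply hdet
    have h2 : (Matrix.of fun i j => h i (b j)) =
        ((L.val : L →+* Ω).comp (S.val : S →+* L)).mapMatrix (Matrix.of fun i j => g i (b j)) := by
      ext i j
      rfl
    rw [h2, ← RingHom.map_det, h0, map_zero]

end Pool.Agent.W459.AD
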