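import Pool.Agent.W459.AD.Core

set_option autoImplicit false

open Module

universe u v

namespace Pool.Agent.W459.AD

section gen

variable {k : Type u} [Field k] {A : Type v} [CommRing A] [Algebra k A] {d : ℕ}

/-- Coordinates of a product. -/
theorem coords (b : Basis (Fin d) k A) (x y : A) (m : Fin d) :
    b.repr (x * y) m = ∑ a, ∑ a', b.repr x a * b.repr y a' * b.repr (b a * b a') m := by
  conv_lhs => rw [← b.sum_repr x, ← b.sum_repr y]
  rw [Finset.sum_mul, map_sum, Finsupp.finsetSum_apply]
  refine Finset.sum_congr rfl fun a _ => ?_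
  rw [Finset.mul_sum, map_sum, Finsupp.finsetSum_apply]
  refine Finset.sum_congr rfl fun a' _ => ?_
  rw [smul_mul_smul_comm, map_smul, Finsupp.smul_apply, smul_eq_mul]

/-- The generic matrix. -/
noncomputable def XM (k : Type u) [Field k] (d : ℕ) :
    Matrix (Fin d) (Fin d) (MvPolynomial (Fin d × Fin d) k) :=
  fun a i => MvPolynomial.X (a, i)

/-- The polynomial expressing that the coefficient of the product is nonzero. -/
noncomputable def Dp (b : Basis (Fin d) k A) (i j l : Fin d) : MvPolynomial (Fin d × Fin d) k :=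
  ((XM k d).updateCol l (fun m => ∑ a, ∑ a',
    MvPolynomial.X (a, i) * MvPolynomial.X (a', j) *
      MvPolynomial.C (b.repr (b a * b a') m))).det

theorem eval_XM (b : Basis (Fin d) k A) (v : Fin d → A) :
    MvPolynomial.eval (fun p : Fin d × Fin d => b.repr (v p.2) p.1) (XM k d).det = b.det v := by
  rw [RingHom.map_det, Basis.det_apply]
  congr 1
  ext a i
  simp [XM, Basis.toMatrix_apply]

theorem eval_Dp (b : Basis (Fin d) k A) (v : Fin d → A) (i j l : Fin d) :
    MvPolynomial.eval (fun p : Fin d × Fin d => b.repr (v p.2) p.1) (Dp b i j l) =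
      b.det (Function.update v l (v i * v j)) := by
  rw [Dp, RingHom.map_det, Basis.det_apply]
  congr 1
  ext a c
  rw [RingHom.mapMatrix_apply, Matrix.map_apply, Basis.toMatrix_apply]
  by_cases hc : c = l
  · subst hc
    rw [Matrix.updateCol_self, Function.update_self, coords b]
    simp
  · rw [Matrix.updateCol_ne hc, Function.update_of_ne hc]
    simp [XM]

theorem det_update (b g : Basis (Fin d) k A) (l : Fin d) (x : A) :
    b.det (Function.update g l x) = g.repr x l * b.det g := by
  classical
  have key : ∀ y : A, b.det (Function.update g l y) =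
      (b.det.toMultilinearMap.toLinearMap (⇑g) l) y := fun y => rfl
  rw [key]
  conv_lhs => rw [← g.sum_repr x]
  rw [map_sum, Finset.sum_eq_single l]
  · rw [map_smul, ← key, Function.update_eq_self, smul_eq_mul]
  · intro c _ hc
    rw [map_smul]
    have : (b.det.toMultilinearMap.toLinearMap (⇑g) l) (g c) = 0 := by
      rw [← key]
      apply b.det.map_eq_zero_of_eq _ _ (Ne.symm hc)
      rw [Function.update_self, Function.update_of_ne hc]
    rw [this, smul_zero]
  · intro h
    exact absurd (Finset.mem_univ l) h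

/-- Over an infinite field, every finite dimensional algebra has a basis all of whose structure
constants are nonzero. -/
theorem good_basis [Infinite k] [FiniteDimensional k A] (b : Basis (Fin d) k A) :
    ∃ g : Basis (Fin d) k A, ∀ i j l, g.repr (g i * g j) l ≠ 0 := by
  classical
  have hd : finrank k A = d := by
    rw [finrank_eq_card_basis b]; simp
  have h1 : ∀ i j l, Dp b i j l ≠ 0 := by
    intro i j l h
    obtain ⟨g, hg1, hg2⟩ := exists_family (k := k) hd i j l
    have h2 := eval_Dp b g i j l
    rw [h, map_zero, ← hg2, Function.update_eq_self] at h2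
    have hne : Nonempty (Fin d) := ⟨i⟩
    have h3 := (basisOfLinearIndependentOfCardEqFinrank hg1 (by simp [hd]))
    have h4 : IsUnit (b.det g) := by
      rw [← Basis.is_basis_iff_det]
      refine ⟨hg1, ?_⟩
      exact hg1.span_eq_top_of_card_eq_finrank' (by simp [hd])
    rw [← h2] at h4
    exact not_isUnit_zero h4
  have h0 : (XM k d).det ≠ 0 := by
    intro h
    have h2 := eval_XM b b
    rw [h, map_zero, Basis.det_self] at h2
    exact zero_ne_one h2
  have hprod : (∏ i, ∏ j, ∏ l, Dp b i j l) * (XM k d).det ≠ 0 := by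
    apply mul_ne_zero _ h0
    refine Finset.prod_ne_zero_iff.2 fun i _ => Finset.prod_ne_zero_iff.2 fun j _ =>
      Finset.prod_ne_zero_iff.2 fun l _ => h1 i j l
  obtain ⟨x, hx⟩ : ∃ x, MvPolynomial.eval x ((∏ i, ∏ j, ∏ l, Dp b i j l) * (XM k d).det) ≠ 0 := by
    by_contra h
    push Not at h
    apply hprod
    apply MvPolynomial.funext
    intro x
    rw [h x, map_zero]
  rw [map_mul, map_prod] at hx
  have hx0 := right_ne_zero_of_mul hx
  have hx1 := left_ne_zero_of_mul hx
  set v : Fin d → A := fun i => ∑ a, x (a, i) • b a with hv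
  have hxv : x = fun p : Fin d × Fin d => b.repr (v p.2) p.1 := by
    funext p
    rw [hv]
    simp only
    rw [b.repr_sum_self]
  rw [hxv, eval_XM] at hx0
  have hbv : LinearIndependent k v ∧ Submodule.span k (Set.range v) = ⊤ := by
    rw [Basis.is_basis_iff_det b]
    exact isUnit_iff_ne_zero.2 hx0
  refine ⟨Basis.mk hbv.1 hbv.2.ge, ?_⟩
  intro i j l
  have e1 : MvPolynomial.eval x (Dp b i j l) ≠ 0 := by
    have h2 := Finset.prod_ne_zero_iff.1 hx1 i (Finset.mem_univ i)
    rw [map_prod] at h2
    have h3 := Finset.prod_ne_zero_iff.1 h2 j (Finset.mem_univ j)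
    rw [map_prod] at h3
    exact Finset.prod_ne_zero_iff.1 h3 l (Finset.mem_univ l)
  rw [hxv, eval_Dp] at e1
  have e2 := det_update b (Basis.mk hbv.1 hbv.2.ge) l (v i * v j)
  rw [Basis.coe_mk] at e2
  rw [e2] at e1
  rw [Basis.coe_mk]
  exact left_ne_zero_of_mul e1

end gen

end Pool.Agent.W459.AD
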