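import Mathlib

set_option autoImplicit false

open Module TensorProduct

universe u v w

namespace Pool.Agent.W459.AD

/-- A finite reduced algebra over an algebraically closed field is split. -/
theorem split_closed (Ω : Type u) [Field Ω] [IsAlgClosed Ω] (T : Type v) [CommRing T] [Algebra Ω T]
    [Module.Finite Ω T] [IsReduced T] :
    ∃ (ι : Type v) (_ : Fintype ι), Nonempty (T ≃ₐ[Ω] (ι → Ω)) := by
  have : IsArtinianRing T := IsArtinianRing.of_finite Ω T
  let _ (m : MaximalSpectrum T) : Field (T ⧸ m.asIdeal) := Ideal.Quotient.field m.asIdeal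
  exact ⟨MaximalSpectrum T, Fintype.ofFinite _, ⟨((IsArtinianRing.equivPi _).restrictScalars Ω).trans
    (AlgEquiv.piCongrRight fun _ ↦ (AlgEquiv.ofBijective (Algebra.ofId Ω _)
      (IsAlgClosed.algebraMap_bijective_of_isIntegral)).symm)⟩⟩

/-- From the splitting after base change to an algebraically closed field to homomorphisms. -/
theorem homs_of_reduced {R : Type u} [CommRing R] {Ω : Type v} [Field Ω] [IsAlgClosed Ω]
    [Algebra R Ω] {B : Type w} [CommRing B] [Algebra R B] {d : ℕ} (b : Basis (Fin d) R B)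
    [IsReduced (Ω ⊗[R] B)] :
    ∃ h : Fin d → (B →ₐ[R] Ω), (Matrix.of fun i j => h i (b j)).det ≠ 0 := by
  classical
  let bT := b.baseChange Ω
  have : Module.Finite Ω (Ω ⊗[R] B) := Module.Finite.of_basis bT
  obtain ⟨ι, _, ⟨f⟩⟩ := split_closed Ω (Ω ⊗[R] B)
  have hcard : Fintype.card ι = d := by
    have h1 := f.toLinearEquiv.finrank_eq
    rw [finrank_eq_card_basis bT] at h1
    simpa using h1.symm
  let e : Fin d ≃ ι := (Fintype.equivFinOfCardEq hcard).symm
  let g : Ω ⊗[R] B ≃ₗ[Ω] (Fin d → Ω) :=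
    f.toLinearEquiv.trans (LinearEquiv.funCongrLeft Ω Ω e)
  refine ⟨fun i => ((Pi.evalAlgHom Ω (fun _ : ι => Ω) (e i)).restrictScalars R).comp
    ((f.toAlgHom.restrictScalars R).comp Algebra.TensorProduct.includeRight), ?_⟩
  have h2 := (Pi.basisFun Ω (Fin d)).isUnit_det (bT.map g)
  rw [Basis.det_apply] at h2
  have h3 : (Pi.basisFun Ω (Fin d)).toMatrix (bT.map g) =
      Matrix.of fun i j => (((Pi.evalAlgHom Ω (fun _ : ι => Ω) (e i)).restrictScalars R).comp
    ((f.toAlgHom.restrictScalars R).comp Algebra.TensorProduct.includeRight)) (b j) := by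
    ext i j
    simp [Basis.toMatrix_apply, g, bT]
  rw [h3] at h2
  exact h2.ne_zero

/-- Conversely, enough homomorphisms split the base change. -/
theorem split_of_homs {R : Type u} [CommRing R] {K : Type v} [Field K]
    [Algebra R K] {B : Type w} [CommRing B] [Algebra R B] {d : ℕ} (b : Basis (Fin d) R B)
    (h : Fin d → (B →ₐ[R] K)) (hdet : (Matrix.of fun i j => h i (b j)).det ≠ 0) :
    Nonempty ((K ⊗[R] B) ≃ₐ[K] (Fin d → K)) := by
  classical
  let bT := b.baseChange K
  let F : K ⊗[R] B →ₐ[K] (Fin d → K) := AlgHom.pi fun i =>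
    Algebra.TensorProduct.lift (AlgHom.id K K) (h i) (fun _ _ => Commute.all _ _)
  have hM : LinearMap.toMatrix bT (Pi.basisFun K (Fin d)) F.toLinearMap =
      Matrix.of fun i j => h i (b j) := by
    ext i j
    simp [LinearMap.toMatrix_apply, F, bT]
  have hb : Function.Bijective F := by
    have h1 : IsUnit (LinearMap.toMatrix bT (Pi.basisFun K (Fin d)) F.toLinearMap).det := by
      rw [hM]; exact isUnit_iff_ne_zero.2 hdet
    exact (LinearEquiv.ofIsUnitDet h1).bijective
  exact ⟨AlgEquiv.ofBijective F hb⟩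

/-- A split algebra is geometrically reduced. -/
theorem geom_of_split {K : Type u} [Field K] {T : Type v} [CommRing T] [Algebra K T] {d : ℕ}
    (e : T ≃ₐ[K] (Fin d → K)) : Algebra.IsGeometricallyReduced K T := by
  rw [Algebra.isGeometricallyReduced_field_iff]
  have f : (AlgebraicClosure K) ⊗[K] T ≃ₐ[AlgebraicClosure K] (Fin d → AlgebraicClosure K) :=
    (Algebra.TensorProduct.congr AlgEquiv.refl e).trans
      (Algebra.TensorProduct.piScalarRight K (AlgebraicClosure K) (AlgebraicClosure K) (Fin d))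
  exact isReduced_of_injective f f.injective

end Pool.Agent.W459.AD
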